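import Pool.Agent.Lib.MP_54fe2d_lc.FC.Names
import Mathlib.Data.W.Cardinal

/-!
# The closure of a set of names under named operations
-/

set_option autoImplicit false

namespace Pool.Agent.Lib.MP_54fe2d_lc.FC

open Cardinal Order

universe u v w

namespace CLO

variable {P : Type u} [PartialOrder P] {A : Type u}

/-- the arities of the terms -/
def Ar {B O : Type u} : B ⊕ (O × ℕ) → Type u
  | Sum.inl _ => PEmpty
  | Sum.inr q => ULift.{u} (Fin q.2)

instance {B O : Type u} (x : B ⊕ (O × ℕ)) : Finite (Ar x) := by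
  cases x with
  | inl b => exact (inferInstance : Finite PEmpty.{u + 1})
  | inr q => exact (inferInstance : Finite (ULift.{u} (Fin q.2)))

/-- the value of a term -/
def ev {B O : Type u} (base : B → Nm P A) (ops : O → List A → Nm P A) :
    WType (Ar : B ⊕ (O × ℕ) → Type u) → Nm P A
  | ⟨Sum.inl b, _⟩ => base b
  | ⟨Sum.inr q, f⟩ => (Nm.list (List.ofFn fun i : Fin q.2 => ev base ops (f (ULift.up i)))).bind
      (ops q.1)

end CLO

open CLO in
theorem clo_exists {P : Type u} [PartialOrder P] {A : Type u} {B O : Type u}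
    (base : B → Nm P A) (ops : O → List A → Nm P A) {μ : Cardinal.{u}} (hμ : ℵ₀ ≤ μ)
    (hB : #B ≤ μ) (hO : #O ≤ μ) (Q : A → Prop) (hb : ∀ b p a, (base b).rel p a → Q a)
    (hops : ∀ o l p a, (ops o l).rel p a → Q a) :
    ∃ (M : Type u) (e : M → Nm P A), #M ≤ μ ∧
      (∀ b, ∃ m, e m = base b) ∧ (∀ m p a, (e m).rel p a → Q a) ∧
      ∀ (o : O) (L : List M), ∃ m, ∀ p l a, (Nm.list (L.map e)).rel p l → (ops o l).rel p a →
        (e m).rel p a := by
  refine ⟨WType (Ar : B ⊕ (O × ℕ) → Type u), ev base ops, ?_, ?_, ?_, ?_⟩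
  · refine (WType.cardinalMk_le_max_aleph0_of_finite).trans (max_le ?_ hμ)
    rw [Cardinal.mk_sum, Cardinal.mk_prod]
    simp only [Cardinal.lift_id, Cardinal.lift_uzero, Cardinal.mk_nat, Cardinal.lift_aleph0]
    refine Cardinal.add_le_of_le hμ hB ?_
    exact (mul_le_mul' hO hμ).trans (Cardinal.mul_eq_self hμ).le
  · exact fun b => ⟨⟨Sum.inl b, fun x => x.elim⟩, rfl⟩
  · intro m p a h
    match m with
    | ⟨Sum.inl b, f⟩ => exact hb b p a h
    | ⟨Sum.inr q, f⟩ =>
      obtain ⟨l, _, h2⟩ := h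
      exact hops q.1 l p a h2
  · intro o L
    refine ⟨⟨Sum.inr (o, L.length), fun i => L.get i.down⟩, fun p l a h1 h2 => ?_⟩
    refine ⟨l, ?_, h2⟩
    have h3 : (List.ofFn fun i : Fin L.length => ev base ops (L.get i)) = L.map (ev base ops) := by
      calc (List.ofFn fun i : Fin L.length => ev base ops (L.get i))
          = (List.ofFn L.get).map (ev base ops) := (List.map_ofFn (f := L.get) (g := ev base ops)).symm
        _ = L.map (ev base ops) := by rw [List.ofFn_get]
    rw [← h3] at h1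
    exact h1

end Pool.Agent.Lib.MP_54fe2d_lc.FC
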