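import Pool.Agent.Lib.MP_54fe2d_lc.FC.Names

/-!
# Levy collapses: the generic surjection, closure, size
-/

set_option autoImplicit false

namespace Pool.Agent.Lib.MP_54fe2d_lc.FC

open Cardinal Order Set

universe u v w

/-! ### The generic surjection -/

theorem card_insert_lt {T : Type u} {θ : Cardinal.{u}} (hθ : ℵ₀ ≤ θ) {S : Set T} (hS : #S < θ)
    (x : T) : #(insert x S : Set T) < θ := by
  refine (Cardinal.mk_insert_le).trans_lt ?_
  exact Cardinal.add_lt_of_lt hθ hS (one_lt_aleph0.trans_le hθ)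

theorem Coll.exists_ext {θ τ : Cardinal.{u}} (hθ : ℵ₀ ≤ θ) (p : Coll θ τ) (x : θ.ord.ToType)
    (b : τ.ord.ToType) (hx : p.1 x = none) : ∃ q ≤ p, q.1 x = some b := by
  classical
  refine ⟨⟨Function.update p.1 x (some b), ?_⟩, ?_, ?_⟩
  · refine (Cardinal.mk_le_mk_of_subset ?_).trans_lt (card_insert_lt hθ p.2 x)
    intro y hy
    by_cases h : y = x
    · exact Or.inl h
    · refine Or.inr ?_
      have hy' : Function.update p.1 x (some b) y ≠ none := hy
      rw [Function.update_of_ne h] at hy'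
      exact hy'
  · intro y c hc
    show Function.update p.1 x (some b) y = some c
    have h : y ≠ x := by
      rintro rfl
      rw [hx] at hc
      exact absurd hc (by simp)
    rw [Function.update_of_ne h]
    exact hc
  · show Function.update p.1 x (some b) x = some b
    rw [Function.update_self]

/-- the generic function -/
def Coll.gen {θ τ : Cardinal.{u}} (hθ : ℵ₀ ≤ θ) (hτ : τ ≠ 0) (x : θ.ord.ToType) :
    Nm (Coll θ τ) τ.ord.ToType where
  rel p b := p.1 x = some b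
  mono h h' := h _ _ h'
  uniq h h' := Option.some.inj (h.symm.trans h')
  dense p := by
    have hne : Nonempty τ.ord.ToType := by
      rw [← Cardinal.mk_ne_zero_iff, mk_ord_toType]
      exact hτ
    obtain ⟨b₀⟩ := hne
    cases h : p.1 x with
    | some b => exact ⟨p, le_rfl, b, h⟩
    | none =>
      obtain ⟨q, hq, hqb⟩ := Coll.exists_ext hθ p x b₀ h
      exact ⟨q, hq, b₀, hqb⟩

theorem Coll.forcesOnto {θ τ : Cardinal.{u}} (hθ : ℵ₀ ≤ θ) (hτ : τ ≠ 0) (p : Coll θ τ) :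
    ForcesOnto p (Coll.gen hθ hτ) := by
  intro b
  rw [forcesMem_pure]
  intro q _
  have h1 : ∃ x, q.1 x = none := by
    by_contra hcon
    push Not at hcon
    have h2 : {x | q.1 x ≠ none} = Set.univ := eq_univ_of_forall hcon
    have h3 := q.2
    rw [h2, mk_univ, mk_ord_toType] at h3
    exact lt_irrefl _ h3
  obtain ⟨x, hx⟩ := h1
  obtain ⟨r, hr, hrb⟩ := Coll.exists_ext hθ q x b hx
  exact ⟨r, hr, x, hrb⟩

/-! ### Products -/

section prod

variable {P : Type u} [PartialOrder P] {Q : Type u} [PartialOrder Q] {A : Type v} {B : Type w}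

/-- a `P`-name as a `P × Q`-name -/
def Nm.left (x : Nm P A) : Nm (P × Q) A where
  rel p a := x.rel p.1 a
  mono h h' := x.mono h.1 h'
  uniq h h' := x.uniq h h'
  dense p := by
    obtain ⟨q, hq, a, ha⟩ := x.dense p.1
    exact ⟨(q, p.2), ⟨hq, le_rfl⟩, a, ha⟩

/-- a `Q`-name as a `P × Q`-name -/
def Nm.right (x : Nm Q A) : Nm (P × Q) A where
  rel p a := x.rel p.2 a
  mono h h' := x.mono h.2 h'
  uniq h h' := x.uniq h h'
  dense p := by
    obtain ⟨q, hq, a, ha⟩ := x.dense p.2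
    exact ⟨(p.1, q), ⟨le_rfl, hq⟩, a, ha⟩

theorem ForcesOnto.left {p : P × Q} {g : B → Nm P A} (h : ForcesOnto p.1 g) :
    ForcesOnto p (fun b => (g b).left : B → Nm (P × Q) A) := by
  intro a
  rw [forcesMem_pure]
  intro q hq
  obtain ⟨r, hr, b, hb⟩ := forcesMem_pure.1 (h a) q.1 hq.1
  exact ⟨(r, q.2), ⟨hr, le_rfl⟩, b, hb⟩

theorem ForcesOnto.right {p : P × Q} {g : B → Nm Q A} (h : ForcesOnto p.2 g) :
    ForcesOnto p (fun b => (g b).right : B → Nm (P × Q) A) := by
  intro a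
  rw [forcesMem_pure]
  intro q hq
  obtain ⟨r, hr, b, hb⟩ := forcesMem_pure.1 (h a) q.2 hq.2
  exact ⟨(q.1, r), ⟨le_rfl, hr⟩, b, hb⟩

end prod

/-! ### Small forcings preserve large cardinals -/

theorem not_onto_of_card {P : Type u} [PartialOrder P] {A B : Type u} (hω : ℵ₀ ≤ #B)
    (hP : #P < #B) (hA : #A < #B) (g : A → Nm P B) (p : P) : ¬ ForcesOnto p g := by
  intro h
  have h1 : ∀ b : B, ∃ x : P × A, (g x.2).rel x.1 b := by
    intro b
    obtain ⟨r, _, a, ha⟩ := forcesMem_pure.1 (h b) p le_rfl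
    exact ⟨(r, a), ha⟩
  choose φ hφ using h1
  have h2 : Function.Injective φ := by
    intro b b' hbb
    have h3 := hφ b'
    rw [← hbb] at h3
    exact (g (φ b).2).uniq (hφ b) h3
  have h3 := Cardinal.mk_le_of_injective h2
  rw [Cardinal.mk_prod, Cardinal.lift_id, Cardinal.lift_id] at h3
  exact absurd h3 (not_le.2 (Cardinal.mul_lt_of_lt hω hP hA))

/-! ### Closed forcings -/

/-- every chain of at most `μ` conditions has a lower bound -/
def Closed (Q : Type u) [PartialOrder Q] (μ : Cardinal.{u}) : Prop :=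
  ∀ S : Set Q, #S ≤ μ → IsChain (· ≤ ·) S → ∃ q, ∀ s ∈ S, q ≤ s

theorem Closed.exists_meet {Q : Type u} [PartialOrder Q] {μ : Cardinal.{u}} (hμ : ℵ₀ ≤ μ)
    (hQ : Closed Q μ) {ι : Type u} (hι : #ι ≤ μ) (D : ι → Set Q)
    (hD : ∀ i q, ∃ r ≤ q, r ∈ D i) (hopen : ∀ i q r, q ∈ D i → r ≤ q → r ∈ D i) (q₀ : Q) :
    ∃ q ≤ q₀, ∀ i, q ∈ D i := by
  classical
  obtain ⟨_, _⟩ := exists_wellOrder ι
  obtain ⟨f, hf⟩ : ∃ f : ι → Q, ∀ i, f i = if h : ∃ q, q ≤ q₀ ∧ (∀ j < i, q ≤ f j) ∧ q ∈ D i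
      then h.choose else q₀ := by
    refine ⟨WellFounded.fix (C := fun _ => Q) (wellFounded_lt : WellFounded ((· < ·) : ι → ι → Prop))
      (fun i F => if h : ∃ q, q ≤ q₀ ∧ (∀ j, ∀ hj : j < i, q ≤ F j hj) ∧ q ∈ D i
      then h.choose else q₀), fun i => ?_⟩
    rw [WellFounded.fix_eq]
  have key : ∀ i, f i ≤ q₀ ∧ (∀ j < i, f i ≤ f j) ∧ f i ∈ D i := by
    intro i
    induction i using WellFoundedLT.induction with
    | ind i ih =>
      have hex : ∃ q, q ≤ q₀ ∧ (∀ j < i, q ≤ f j) ∧ q ∈ D i := by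
        obtain ⟨q, hq⟩ := hQ (insert q₀ (f '' {j | j < i})) (by
            refine (Cardinal.mk_insert_le).trans (Cardinal.add_le_of_le hμ ?_
              (one_le_aleph0.trans hμ))
            refine (Cardinal.mk_image_le).trans ((Cardinal.mk_set_le _).trans hι)) (by
          refine IsChain.insert ?_ ?_
          · rintro _ ⟨j, hj, rfl⟩ _ ⟨k, hk, rfl⟩ _
            rcases le_total j k with h | h
            · rcases h.lt_or_eq with h | rfl
              · exact Or.inr ((ih k hk).2.1 j h)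
              · exact Or.inl le_rfl
            · rcases h.lt_or_eq with h | rfl
              · exact Or.inl ((ih j hj).2.1 k h)
              · exact Or.inl le_rfl
          · rintro _ ⟨j, hj, rfl⟩ _
            exact Or.inr (ih j hj).1)
        obtain ⟨r, hr, hrD⟩ := hD i q
        exact ⟨r, hr.trans (hq _ (Or.inl rfl)),
          fun j hj => hr.trans (hq _ (Or.inr ⟨j, hj, rfl⟩)), hrD⟩
      rw [hf i, dif_pos hex]
      exact hex.choose_spec
  obtain ⟨q, hq⟩ := hQ (insert q₀ (range f)) (by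
      refine (Cardinal.mk_insert_le).trans (Cardinal.add_le_of_le hμ ?_ (one_le_aleph0.trans hμ))
      exact (Cardinal.mk_range_le).trans hι) (by
    refine IsChain.insert ?_ ?_
    · rintro _ ⟨j, rfl⟩ _ ⟨k, rfl⟩ _
      rcases le_total j k with h | h
      · rcases h.lt_or_eq with h | rfl
        · exact Or.inr ((key k).2.1 j h)
        · exact Or.inl le_rfl
      · rcases h.lt_or_eq with h | rfl
        · exact Or.inl ((key j).2.1 k h)
        · exact Or.inl le_rfl
    · rintro _ ⟨j, rfl⟩ _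
      exact Or.inr (key j).1)
  exact ⟨q, hq _ (Or.inl rfl), fun i => hopen i _ _ (key i).2.2 (hq _ (Or.inr ⟨i, rfl⟩))⟩

/-- a small forcing times a closed forcing does not collapse `μ⁺` -/
theorem not_onto_prod {P Q : Type u} [PartialOrder P] [PartialOrder Q] {μ : Cardinal.{u}}
    (hμ : ℵ₀ ≤ μ) (hP : #P ≤ μ) (hQ : Closed Q μ) {A B : Type u} (hA : #A ≤ μ) (hB : μ < #B)
    (g : A → Nm (P × Q) B) (p : P × Q) : ¬ ForcesOnto p g := by
  intro h
  obtain ⟨q, hq, hqD⟩ := hQ.exists_meet hμ (ι := P × A) (by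
      rw [Cardinal.mk_prod, Cardinal.lift_id, Cardinal.lift_id]
      exact (mul_le_mul' hP hA).trans (Cardinal.mul_eq_self hμ).le)
    (fun i => {q | ∃ p' ≤ i.1, ∃ b, (g i.2).rel (p', q) b}) (by
      intro i q
      obtain ⟨⟨p', q'⟩, hpq, b, hb⟩ := (g i.2).dense (i.1, q)
      exact ⟨q', hpq.2, p', hpq.1, b, hb⟩) (by
      rintro i q r ⟨p', hp', b, hb⟩ hr
      exact ⟨p', hp', b, (g i.2).mono (show (p', r) ≤ (p', q) from ⟨le_rfl, hr⟩) hb⟩) p.2
  have h1 : ∀ i : P × A, ∃ p' ≤ i.1, ∃ b, (g i.2).rel (p', q) b := hqD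
  choose φ hφ b hb using h1
  have h2 : ∀ c : B, ∃ i : P × A, b i = c := by
    intro c
    obtain ⟨r, hr, a, ha⟩ := forcesMem_pure.1 (h c) (p.1, q) ⟨le_rfl, hq⟩
    refine ⟨(r.1, a), ?_⟩
    refine (g a).eq_of_le (hb (r.1, a)) ha (r := (φ (r.1, a), r.2)) ⟨le_rfl, hr.2⟩
      ⟨hφ (r.1, a), le_rfl⟩
  have h3 := Cardinal.mk_le_of_surjective h2
  rw [Cardinal.mk_prod, Cardinal.lift_id, Cardinal.lift_id] at h3
  exact absurd (h3.trans ((mul_le_mul' hP hA).trans (Cardinal.mul_eq_self hμ).le)) (not_le.2 hB)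

/-- `Coll(μ⁺, τ)` is closed -/
theorem Coll.closed {μ τ : Cardinal.{u}} (hμ : ℵ₀ ≤ μ) : Closed (Coll (succ μ) τ) μ := by
  classical
  intro S hS hchain
  obtain ⟨f, hf⟩ : ∃ f : (succ μ).ord.ToType → Option τ.ord.ToType, ∀ x,
      f x = if h : ∃ b, ∃ s ∈ S, s.1 x = some b then some h.choose else none :=
    ⟨_, fun _ => rfl⟩
  have hfs : ∀ s ∈ S, ∀ x b, s.1 x = some b → f x = some b := by
    intro s hs x b hb
    have hex : ∃ b, ∃ s ∈ S, s.1 x = some b := ⟨b, s, hs, hb⟩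
    rw [hf x, dif_pos hex]
    obtain ⟨t, ht, htb⟩ := hex.choose_spec
    congr 1
    rcases hchain.total hs ht with h | h
    · have h1 := h x _ htb
      exact Option.some.inj (h1.symm.trans hb)
    · have h1 := h x _ hb
      exact Option.some.inj (htb.symm.trans h1)
  have hdom : {x | f x ≠ none} ⊆ ⋃ s : S, {x | s.1.1 x ≠ none} := by
    intro x hx
    have hx' : f x ≠ none := hx
    rw [hf x] at hx'
    by_cases h : ∃ b, ∃ s ∈ S, s.1 x = some b
    · obtain ⟨b, s, hs, hb⟩ := h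
      refine mem_iUnion.2 ⟨⟨s, hs⟩, ?_⟩
      show s.1 x ≠ none
      rw [hb]
      simp
    · rw [dif_neg h] at hx'
      exact absurd rfl hx'
  refine ⟨⟨f, ?_⟩, fun s hs x b hb => hfs s hs x b hb⟩
  refine (Cardinal.mk_le_mk_of_subset hdom).trans_lt ?_
  refine (Cardinal.mk_iUnion_le _).trans_lt ?_
  rw [Order.lt_succ_iff]
  refine (mul_le_mul' hS (ciSup_le' fun s : S => Order.lt_succ_iff.1 s.1.2)).trans
    (Cardinal.mul_eq_self hμ).le

/-! ### Sizes -/

/-- the graph -/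
def Coll.graph {θ τ : Cardinal.{u}} (p : Coll θ τ) : Set (θ.ord.ToType × τ.ord.ToType) :=
  {x | p.1 x.1 = some x.2}

theorem Coll.graph_injective {θ τ : Cardinal.{u}} :
    Function.Injective (Coll.graph : Coll θ τ → _) := by
  intro p q h
  apply le_antisymm
  · intro x b hb
    have h1 : (x, b) ∈ q.graph := hb
    rw [← h] at h1
    exact h1
  · intro x b hb
    have h1 : (x, b) ∈ p.graph := hb
    rw [h] at h1
    exact h1

theorem Coll.card_graph {θ τ : Cardinal.{u}} (p : Coll θ τ) : #p.graph < θ := by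
  refine lt_of_le_of_lt ?_ p.2
  refine Cardinal.mk_le_of_injective (f := fun x : p.graph =>
    (⟨x.1.1, by
      have h : p.1 x.1.1 = some x.1.2 := x.2
      show p.1 x.1.1 ≠ none
      rw [h]
      simp⟩ : {x | p.1 x ≠ none})) ?_
  intro x y hxy
  have h1 : x.1.1 = y.1.1 := congrArg Subtype.val hxy
  have hx : p.1 x.1.1 = some x.1.2 := x.2
  have hy : p.1 y.1.1 = some y.1.2 := y.2
  rw [h1, hy] at hx
  exact Subtype.ext (Prod.ext h1 (Option.some.inj hx).symm)

theorem Coll.card_aleph0 {μ : Cardinal.{u}} (hμ : ℵ₀ ≤ μ) : #(Coll ℵ₀ μ) ≤ μ := by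
  classical
  have h0 : #((ℵ₀ : Cardinal.{u}).ord.ToType × μ.ord.ToType) = μ := by
    rw [Cardinal.mk_prod, Cardinal.lift_id, Cardinal.lift_id, mk_ord_toType, mk_ord_toType]
    exact Cardinal.aleph0_mul_eq hμ
  have hinf : Infinite ((ℵ₀ : Cardinal.{u}).ord.ToType × μ.ord.ToType) := by
    rw [Cardinal.infinite_iff, h0]
    exact hμ
  have hfin : ∀ p : Coll ℵ₀ μ, p.graph.Finite := fun p =>
    Cardinal.lt_aleph0_iff_set_finite.1 p.card_graph
  have h1 : #(Coll ℵ₀ μ) ≤ #(Finset ((ℵ₀ : Cardinal.{u}).ord.ToType × μ.ord.ToType)) := by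
    refine Cardinal.mk_le_of_injective (f := fun p : Coll ℵ₀ μ => (hfin p).toFinset) ?_
    intro p q h
    exact Coll.graph_injective (Set.Finite.toFinset_inj.1 h)
  rw [Cardinal.mk_finset_of_infinite, h0] at h1
  exact h1

theorem Coll.card_strongLimit {θ κ : Cardinal.{u}} (hκ : κ.IsRegular) (hsl : κ.IsStrongLimit)
    (hθ : θ ≤ κ) (hθ0 : θ ≠ 0) : #(Coll θ κ) ≤ κ := by
  have h0 : #(θ.ord.ToType × κ.ord.ToType) = κ := by
    rw [Cardinal.mk_prod, Cardinal.lift_id, Cardinal.lift_id, mk_ord_toType, mk_ord_toType]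
    exact Cardinal.mul_eq_right hκ.aleph0_le hθ hθ0
  have h1 : #{ s : Set (θ.ord.ToType × κ.ord.ToType) //
      #s < (#(θ.ord.ToType × κ.ord.ToType)).ord.cof } = #(θ.ord.ToType × κ.ord.ToType) :=
    Cardinal.mk_subset_mk_lt_cof (by rw [h0]; exact hsl.isStrongPrelimit)
  rw [h0] at h1
  refine le_of_le_of_eq ?_ h1
  refine Cardinal.mk_le_of_injective (f := fun p : Coll θ κ =>
    (⟨p.graph, by rw [hκ.cof_ord]; exact p.card_graph.trans_le hθ⟩ :
      { s : Set (θ.ord.ToType × κ.ord.ToType) // #s < κ.ord.cof })) ?_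
  intro p q h
  exact Coll.graph_injective (congrArg Subtype.val h)

end Pool.Agent.Lib.MP_54fe2d_lc.FC
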