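import Pool.Agent.Lib.MP_54fe2d_lc.FC.Clo
import Pool.Agent.Lib.MP_54fe2d_lc.UC.Uniform

/-!
# The core of the forcing theorem
-/

set_option autoImplicit false

namespace Pool.Agent.Lib.MP_54fe2d_lc.FC

open Cardinal Order Set Pool.Agent.Lib.MP_54fe2d_lc.UC

universe u

/-- the conclusion of the core theorem, with index sets in the ground model -/
def HasSub {P : Type u} [PartialOrder P] (lam μ : Cardinal.{u}) {I : Type u}
    (F : I → List (succ lam).ord.ToType → (succ lam).ord.ToType →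
      Nm P (succ lam).ord.ToType) : Prop :=
  ∃ (M G : Type u) (e : M → Nm P (succ lam).ord.ToType) (g : G → Nm P (succ lam).ord.ToType)
    (X₀ : Set (succ lam).ord.ToType),
    #M ≤ μ ∧ #G ≤ succ μ ∧ #X₀ = succ μ ∧
    (∀ a : (succ lam).ord.ToType, (a.toOrd : Ordinal) ≤ μ.ord → a ∈ X₀) ∧
    (∀ a ∈ X₀, ∀ p, ForcesMem p (Nm.pure a) g) ∧
    (∀ p x, (x.toOrd : Ordinal) < lam.ord → ForcesMem p (Nm.pure x) g →
      ForcesMem p (Nm.pure x) e) ∧
    ∀ p i c a, (∀ x ∈ c, (x.toOrd : Ordinal) < lam.ord ∧ ForcesMem p (Nm.pure x) g) →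
      ForcesMem p (Nm.pure a) g → ForcesMem p (F i c a) g

theorem mem_unflat {I A : Type u} (s : List (I × ℕ)) (l : List A) :
    ∀ q ∈ unflat s l, ∀ x ∈ q.2, x ∈ l := by
  induction s generalizing l with
  | nil => simp [unflat]
  | cons q s ih =>
    intro q' hq' x hx
    simp only [unflat, List.mem_cons] at hq'
    rcases hq' with rfl | hq'
    · exact List.mem_of_mem_take hx
    · exact List.mem_of_mem_drop (ih _ q' hq' x hx)

theorem card_shapes {I : Type u} {μ : Cardinal.{u}} (hμ : ℵ₀ ≤ μ) (hI : #I ≤ μ) :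
    #(List (I × ℕ)) ≤ μ := by
  refine (mk_list_le_max _).trans (max_le hμ ?_)
  rw [Cardinal.mk_prod]
  simp only [Cardinal.lift_uzero, Cardinal.mk_nat, Cardinal.lift_aleph0]
  exact (mul_le_mul' hI hμ).trans (Cardinal.mul_eq_self hμ).le

theorem core {κ lam : Cardinal.{u}} (hκ : StronglyCompact κ) (hlam : κ ≤ lam)
    (hsl : lam.IsStrongLimit) (hcof : lam.ord.cof < κ)
    (Pf : Cardinal.{u} → Type u) [inst : ∀ μ, PartialOrder (Pf μ)]
    (ν : Cardinal.{u}) (hν : ν < κ) (hP : ∀ μ, ν ≤ μ → μ < κ → #(Pf μ) < lam)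
    (I : Type u) (hI : #I < κ) :
    ∃ μ : Cardinal.{u}, ν ≤ μ ∧ μ < κ ∧
      ∀ F : I → List (succ lam).ord.ToType → (succ lam).ord.ToType →
        Nm (Pf μ) (succ lam).ord.ToType, HasSub lam μ F := by
  classical
  by_contra hcon
  push Not at hcon
  have hex : ∀ μ : Cardinal.{u}, ∃ F : I → List (succ lam).ord.ToType →
      (succ lam).ord.ToType → Nm (Pf μ) (succ lam).ord.ToType, ν ≤ μ → μ < κ →
      ¬ HasSub lam μ F := by
    intro μ
    by_cases h : ν ≤ μ ∧ μ < κ
    · obtain ⟨F, hF⟩ := hcon μ h.1 h.2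
      exact ⟨F, fun _ _ => hF⟩
    · exact ⟨fun _ _ a => Nm.pure a, fun h1 h2 => absurd ⟨h1, h2⟩ h⟩
  choose Fam hFam using hex
  have hω : ℵ₀ < κ := hκ.1
  have hωlam : ℵ₀ ≤ lam := hω.le.trans hlam
  have hlamle : lam.ord ≤ (succ lam).ord := Cardinal.ord_le_ord.2 (Order.le_succ _)
  have hlim : IsSuccLimit lam.ord := isSuccLimit_ord hωlam
  obtain ⟨U, hUdef⟩ : ∃ U : Set (succ lam).ord.ToType,
    U = {a | (a.toOrd : Ordinal) < lam.ord} := ⟨_, rfl⟩
  have hUmem : ∀ a, a ∈ U ↔ (a.toOrd : Ordinal) < lam.ord := fun a => by rw [hUdef]; rfl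
  have hU : #U = lam := by rw [hUdef, card_below hlamle, card_ord]
  obtain ⟨C, hC, hCc⟩ := Order.exists_cof_eq lam.ord.ToType
  rw [Ordinal.cof_toType] at hCc
  have hCκ : #C < κ := hCc.trans_lt hcof
  -- the initial segments
  let T : C → Set (succ lam).ord.ToType := fun c =>
    {a | (a.toOrd : Ordinal) < (c.1.toOrd : Ordinal)}
  have hTcard : ∀ c : C, #(T c) < lam := by
    intro c
    have h1 : (c.1.toOrd : Ordinal) < lam.ord := c.1.toOrd.2
    rw [card_below (h1.le.trans hlamle)]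
    exact lt_ord.1 h1
  have hbound : ∀ L : List (succ lam).ord.ToType, (∀ a ∈ L, a ∈ U) →
      ∃ c : C, ∀ a ∈ L, a ∈ T c := by
    intro L hL
    have h1 : ∃ o : Ordinal.{u}, o < lam.ord ∧ ∀ a ∈ L, (a.toOrd : Ordinal) < o := by
      induction L with
      | nil => exact ⟨0, hlim.bot_lt, by simp⟩
      | cons b L ih =>
        obtain ⟨o, ho, hoL⟩ := ih fun a ha => hL a (List.mem_cons_of_mem _ ha)
        have hb := (hUmem b).1 (hL b List.mem_cons_self)
        refine ⟨max o (succ (b.toOrd : Ordinal)), max_lt ho (hlim.succ_lt hb), ?_⟩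
        intro a ha
        rcases List.mem_cons.1 ha with rfl | ha
        · exact (Order.lt_succ _).trans_le (le_max_right _ _)
        · exact (hoL a ha).trans_le (le_max_left _ _)
    obtain ⟨o, ho, hoL⟩ := h1
    obtain ⟨c, hcC, hc⟩ := hC (Ordinal.ToType.mk ⟨o, ho⟩)
    refine ⟨⟨c, hcC⟩, fun a ha => ?_⟩
    have h2 : o ≤ (c.toOrd : Ordinal) := by
      have h3 : (⟨o, ho⟩ : Iio lam.ord) ≤ c.toOrd := by
        simpa using Ordinal.ToType.mk.symm.monotone hc
      exact h3
    exact (hoL a ha).trans_le h2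
  -- the codes
  let Φ : Cardinal.{u} → C → Type u := fun μ c => Set (Pf μ × List (I × List (T c)) × T c)
  have hΦcard : ∀ μ, ν ≤ μ → μ < κ → ∀ c, #(Φ μ c) < lam := by
    intro μ hν hμ c
    have h0 : ℵ₀ ≤ max ℵ₀ (max #I #(T c)) := le_max_left _ _
    have h1 : #(List (I × List (T c))) ≤ max ℵ₀ (max #I #(T c)) := by
      refine (mk_list_le_max _).trans (max_le h0 ?_)
      rw [Cardinal.mk_prod, Cardinal.lift_id, Cardinal.lift_id]
      have h2 : #(List (T c)) ≤ max ℵ₀ (max #I #(T c)) :=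
        (mk_list_le_max _).trans (max_le h0 ((le_max_right _ _).trans (le_max_right _ _)))
      exact (mul_le_mul' ((le_max_left _ _).trans (le_max_right _ _)) h2).trans
        (Cardinal.mul_eq_self h0).le
    have h3 : max ℵ₀ (max #I #(T c)) < lam :=
      max_lt (hω.trans_le hlam) (max_lt (hI.trans_le hlam) (hTcard c))
    have h4 : #(Φ μ c) = 2 ^ (#(Pf μ) * (#(List (I × List (T c))) * #(T c))) := by
      simp only [Φ, Cardinal.mk_set, Cardinal.mk_prod, Cardinal.lift_id]
    rw [h4]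
    refine hsl.two_power_lt ?_
    exact Cardinal.mul_lt_of_lt hωlam (hP μ hν hμ)
      (Cardinal.mul_lt_of_lt hωlam (h1.trans_lt h3) (hTcard c))
  have hUne : Nonempty U := by
    rw [← Cardinal.mk_ne_zero_iff, hU]
    exact (aleph0_pos.trans_le hωlam).ne'
  have hcodes : ∀ μ, ∃ code : (Σ c : C, Φ μ c) → U, ν ≤ μ → μ < κ →
      Function.Injective code := by
    intro μ
    by_cases hμ : ν ≤ μ ∧ μ < κ
    · have h1 : #(Σ c : C, Φ μ c) ≤ #U := by
        rw [Cardinal.mk_sigma, hU]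
        refine (Cardinal.sum_le_mk_mul_iSup _).trans ?_
        have h1 : (⨆ c : C, #(Φ μ c)) ≤ lam := ciSup_le' fun c => (hΦcard μ hμ.1 hμ.2 c).le
        exact (mul_le_mul' (hCκ.le.trans hlam) h1).trans (Cardinal.mul_eq_self hωlam).le
      obtain ⟨f⟩ := Cardinal.le_def _ _ |>.1 h1
      exact ⟨f, fun _ _ => f.injective⟩
    · obtain ⟨u₀⟩ := hUne
      exact ⟨fun _ => u₀, fun h h' => absurd ⟨h, h'⟩ hμ⟩
  choose code hcode using hcodes
  let N : ∀ (μ : Cardinal.{u}) (c : C) (_ : (succ lam).ord.ToType), Φ μ c := fun μ c a =>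
    {x | (actN (Fam μ) (up x.2.1) a).rel x.1 x.2.2}
  let E : C → List (succ lam).ord.ToType → (succ lam).ord.ToType → (succ lam).ord.ToType :=
    fun c l a => match l with
      | [] => a
      | m :: _ => (code (m.toOrd : Ordinal).card ⟨c, N (m.toOrd : Ordinal).card c a⟩ :
          (succ lam).ord.ToType)
  obtain ⟨X₀, μ, hνμ', hμ, hX₀, hX₀U, hμX₀, hcl⟩ := semi_ext hκ hlam hsl hcof C hCκ E
    (max ν (max ℵ₀ (max #I #C))) (max_lt hν (max_lt hω (max_lt hI hCκ)))
  have hνμ : ν ≤ μ := (le_max_left _ _).trans hνμ'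
  have hωμ : ℵ₀ ≤ μ := ((le_max_left _ _).trans (le_max_right _ _)).trans hνμ'
  have hIμ : #I ≤ μ :=
    (((le_max_left _ _).trans (le_max_right _ _)).trans (le_max_right _ _)).trans hνμ'
  have hCμ : #C ≤ μ :=
    (((le_max_right _ _).trans (le_max_right _ _)).trans (le_max_right _ _)).trans hνμ'
  have hμlam : μ.ord < lam.ord := Cardinal.ord_lt_ord.2 (hμ.trans_le hlam)
  obtain ⟨cμ, hcμ⟩ : ∃ c : (succ lam).ord.ToType, (c.toOrd : Ordinal) = μ.ord :=
    ⟨Ordinal.ToType.mk ⟨μ.ord, hμlam.trans_le hlamle⟩, by simp [Ordinal.ToType.toOrd]⟩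
  obtain ⟨F, hF⟩ : ∃ F, F = Fam μ := ⟨_, rfl⟩
  -- the codes of the elements of `X₀`
  have hE : ∀ c, ∀ a ∈ X₀, (code μ ⟨c, N μ c a⟩ : (succ lam).ord.ToType) ∈ X₀ := by
    intro c a ha
    have h1 := hcl c [cμ] (by
      intro x hx
      rw [List.mem_singleton] at hx
      subst hx
      exact ⟨hμX₀ _ hcμ.le, by rw [hcμ]; exact hμlam⟩) a ha
    have h2 : E c [cμ] a = (code μ ⟨c, N μ c a⟩ : (succ lam).ord.ToType) := by
      show (code (cμ.toOrd : Ordinal).card ⟨c, N (cμ.toOrd : Ordinal).card c a⟩ :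
          (succ lam).ord.ToType) = _
      rw [hcμ, card_ord]
    rwa [h2] at h1
  -- the closure below `λ`
  obtain ⟨a₀, ha₀⟩ := hUne
  let rep : Option C → (succ lam).ord.ToType → (succ lam).ord.ToType := fun o z =>
    match o with
    | none => z
    | some c => if h : ∃ a, (code μ ⟨c, N μ c a⟩ : (succ lam).ord.ToType) = z then h.choose else z
  let cut : (succ lam).ord.ToType → (succ lam).ord.ToType := fun x => if x ∈ U then x else a₀
  have hcutU : ∀ x, cut x ∈ U := by
    intro x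
    simp only [cut]
    split_ifs with h
    · exact h
    · exact ha₀
  have hcut : ∀ x, x ∈ U → cut x = x := by
    intro x hx
    simp only [cut]
    rw [if_pos hx]
  let ops : Option C × List (I × ℕ) → List (succ lam).ord.ToType →
      Nm (Pf μ) (succ lam).ord.ToType := fun o l => match l with
    | [] => Nm.pure a₀
    | z :: l' => (actN F (unflat o.2 l') (rep o.1 z)).map cut
  obtain ⟨M, e, hM, hbase, heU, hops⟩ := clo_exists
    (base := fun y : {a : (succ lam).ord.ToType | a ∈ X₀ ∧ (a.toOrd : Ordinal) < lam.ord} =>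
      (Nm.pure y.1 : Nm (Pf μ) (succ lam).ord.ToType)) (ops := ops) hωμ hX₀U.le (by
      rw [Cardinal.mk_prod, Cardinal.lift_id, Cardinal.lift_id, Cardinal.mk_option]
      refine (mul_le_mul' ?_ (card_shapes hωμ hIμ)).trans (Cardinal.mul_eq_self hωμ).le
      exact Cardinal.add_le_of_le hωμ hCμ (one_le_aleph0.trans hωμ)) (fun a => a ∈ U)
      (fun b p a h => by
        have h' : a = b.1 := h
        rw [h']
        exact (hUmem _).2 b.2.2)
      (fun o l p a h => by
        match l, h with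
        | [], h =>
          have h' : a = a₀ := h
          rw [h']
          exact ha₀
        | z :: l', h =>
          obtain ⟨b, _, rfl⟩ := Nm.of_map_rel h
          exact hcutU b)
  let root : X₀ ⊕ M → Nm (Pf μ) (succ lam).ord.ToType := fun ρ => match ρ with
    | Sum.inl a => Nm.pure a.1
    | Sum.inr m => e m
  let g : (X₀ ⊕ M) × (List (I × ℕ) × List M) → Nm (Pf μ) (succ lam).ord.ToType := fun q =>
    (root q.1).bind fun a => (Nm.list (q.2.2.map e)).bind fun l => actN F (unflat q.2.1 l) a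
  have hlistU : ∀ (L : List M) p l, (Nm.list (L.map e)).rel p l → ∀ x ∈ l, x ∈ U := by
    intro L p l h
    induction L generalizing l with
    | nil =>
      have h' : l = [] := h
      subst h'
      simp
    | cons m L ih =>
      obtain ⟨a, c, ha, hc, rfl⟩ := Nm.of_list_cons_rel h
      intro x hx
      rcases List.mem_cons.1 hx with rfl | hx
      · exact heU m p _ ha
      · exact ih c hc x hx
  -- `X ∩ λ`
  have hA : ∀ p x, (x.toOrd : Ordinal) < lam.ord → ForcesMem p (Nm.pure x) g →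
      ForcesMem p (Nm.pure x) e := by
    intro p t ht h
    rw [forcesMem_pure] at h ⊢
    intro q hq
    obtain ⟨r, hr, ⟨ρ, s, L⟩, a, ha, l, hl, hact⟩ := h q hq
    refine ⟨r, hr, ?_⟩
    match ρ, ha with
    | Sum.inr m, ha =>
      obtain ⟨m', hm'⟩ := hops (none, s) (m :: L)
      refine ⟨m', hm' r (a :: l) t (Nm.list_cons_rel ha hl) ?_⟩
      have h1 : (actN F (unflat s l) a).rel r t := hact
      have h2 := Nm.map_rel (f := cut) h1
      rw [hcut t ((hUmem t).2 ht)] at h2
      exact h2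
    | Sum.inl a', ha =>
      have ha' : a = a'.1 := ha
      obtain ⟨c, hc⟩ := hbound (t :: l) (by
        intro x hx
        rcases List.mem_cons.1 hx with rfl | hx
        · exact (hUmem _).2 ht
        · exact hlistU L r l hl x hx)
      obtain ⟨p', hp'⟩ := UC.exists_path (P := T c) (unflat s l) (by
        intro q' hq' x hx
        exact hc x (List.mem_cons_of_mem _ (mem_unflat s l q' hq' x hx)))
      have hup : up p' = unflat s l := hp'
      have htT : t ∈ T c := hc t List.mem_cons_self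
      have hN : (r, p', (⟨t, htT⟩ : T c)) ∈ N μ c a := by
        show (actN (Fam μ) (up p') a).rel r t
        rw [hup, ← hF]
        exact hact
      have haX : a ∈ X₀ := by rw [ha']; exact a'.2
      have hz := hE c a haX
      obtain ⟨m, hm⟩ := hbase ⟨(code μ ⟨c, N μ c a⟩ : (succ lam).ord.ToType), hz,
        (hUmem _).1 (code μ ⟨c, N μ c a⟩).2⟩
      obtain ⟨m', hm'⟩ := hops (some c, s) (m :: L)
      refine ⟨m', hm' r ((code μ ⟨c, N μ c a⟩ : (succ lam).ord.ToType) :: l) t
        (Nm.list_cons_rel (by rw [hm]; rfl) hl) ?_⟩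
      have hex : ∃ a₁, (code μ ⟨c, N μ c a₁⟩ : (succ lam).ord.ToType) =
          (code μ ⟨c, N μ c a⟩ : (succ lam).ord.ToType) := ⟨a, rfl⟩
      have hrep : rep (some c) (code μ ⟨c, N μ c a⟩ : (succ lam).ord.ToType) = hex.choose := by
        simp only [rep]
        rw [dif_pos hex]
      have h5 : (⟨c, N μ c hex.choose⟩ : Σ c : C, Φ μ c) = ⟨c, N μ c a⟩ :=
        hcode μ hνμ hμ (Subtype.ext hex.choose_spec)
      have h6 : N μ c hex.choose = N μ c a := eq_of_heq (Sigma.mk.inj h5).2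
      rw [← h6] at hN
      have h7 : (actN F (unflat s l) hex.choose).rel r t := by
        have h8 : (actN (Fam μ) (up p') hex.choose).rel r t := hN
        rw [hup, ← hF] at h8
        exact h8
      have h2 := Nm.map_rel (f := cut) h7
      rw [hcut t ((hUmem t).2 ht), ← hrep] at h2
      exact h2
  refine hFam μ hνμ hμ ⟨M, _, e, g, X₀, hM, ?_, hX₀, hμX₀, ?_, hA, ?_⟩
  · rw [Cardinal.mk_prod, Cardinal.mk_prod, Cardinal.mk_sum]
    simp only [Cardinal.lift_id]
    have hωs : ℵ₀ ≤ succ μ := hωμ.trans (Order.le_succ _)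
    have hμs : μ ≤ succ μ := Order.le_succ _
    refine (mul_le_mul' ?_ ?_).trans (Cardinal.mul_eq_self hωs).le
    · exact Cardinal.add_le_of_le hωs hX₀.le (hM.trans hμs)
    · refine (mul_le_mul' ((card_shapes hωμ hIμ).trans hμs) ?_).trans
        (Cardinal.mul_eq_self hωs).le
      exact (mk_list_le_max _).trans (max_le hωs (hM.trans hμs))
  · intro a ha p
    rw [forcesMem_pure]
    intro q _
    exact ⟨q, le_rfl, (Sum.inl ⟨a, ha⟩, [], []), a, rfl, [], rfl, rfl⟩
  · intro p i c a hc ha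
    rw [← hF]
    refine forcesMem_of fun q hq b hb => ?_
    obtain ⟨r₁, hr₁, Lc, hLc, hLc'⟩ := exists_list c
      (fun x hx => hA p x (hc x hx).1 (hc x hx).2) q hq
    obtain ⟨r₂, hr₂, ⟨ρ, s, L⟩, a₁, ha₁, l, hl, hact⟩ := forcesMem_pure.1 ha r₁ (hr₁.trans hq)
    refine ⟨r₂, hr₂.trans hr₁, (ρ, (i, c.length) :: s, Lc ++ L), a₁, ha₁, c ++ l, ?_, ?_⟩
    · show (Nm.list ((Lc ++ L).map e)).rel r₂ (c ++ l)
      rw [List.map_append]
      exact Nm.list_append_rel ((Nm.list _).mono hr₂ hLc') hl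
    · show (actN F (unflat ((i, c.length) :: s) (c ++ l)) a₁).rel r₂ b
      have h1 : unflat ((i, c.length) :: s) (c ++ l) = (i, c) :: unflat s l := by
        simp only [unflat, List.take_left, List.drop_left]
      rw [h1]
      exact ⟨a, hact, (F i c a).mono (hr₂.trans hr₁) hb⟩

end Pool.Agent.Lib.MP_54fe2d_lc.FC
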