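import Pool.Agent.Lib.MP_54fe2d_lc.UC.SC

/-!
# Forcing: names for elements of the ground model, Levy collapses

`P` is a forcing notion (a partial order; `q ≤ p` means that `q` is stronger than `p`).
-/

set_option autoImplicit false

namespace Pool.Agent.Lib.MP_54fe2d_lc.FC

open Cardinal Order

universe u v w

/-- A `P`-name for an element of the set `A` of the ground model: `x.rel p a` says that the
condition `p` decides the value of `x` to be `a`. Every condition has a stronger condition which
decides the value. -/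
structure Nm (P : Type u) [PartialOrder P] (A : Type v) where
  rel : P → A → Prop
  mono : ∀ {p q : P} {a : A}, q ≤ p → rel p a → rel q a
  uniq : ∀ {p : P} {a b : A}, rel p a → rel p b → a = b
  dense : ∀ p : P, ∃ q ≤ p, ∃ a, rel q a

/-- The canonical name of the element `a` of the ground model. -/
def Nm.pure {P : Type u} [PartialOrder P] {A : Type v} (a : A) : Nm P A where
  rel _ b := b = a
  mono _ h := h
  uniq h h' := h.trans h'.symm
  dense p := ⟨p, le_rfl, a, rfl⟩

/-- `ForcesMem p x g`: the condition `p` forces that the value of the name `x` is one of the values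
of the function `g` (in the extension, `g` is a function on `B` with values in `A`). -/
def ForcesMem {P : Type u} [PartialOrder P] {A : Type v} {B : Type w} (p : P) (x : Nm P A)
    (g : B → Nm P A) : Prop :=
  ∀ q ≤ p, ∃ r ≤ q, ∃ (b : B) (a : A), (g b).rel r a ∧ x.rel r a

/-- `ForcesOnto p g`: the condition `p` forces that the function `g` from `B` to `A` is onto. -/
def ForcesOnto {P : Type u} [PartialOrder P] {A : Type v} {B : Type w} (p : P)
    (g : B → Nm P A) : Prop :=
  ∀ a : A, ForcesMem p (Nm.pure a) g

/-- The Levy collapse `Coll(θ, τ)`: the partial functions from `θ` to `τ` whose domain has size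
less than `θ`; `q ≤ p` if and only if `q` extends `p`. -/
def Coll (θ τ : Cardinal.{u}) : Type u :=
  {p : θ.ord.ToType → Option τ.ord.ToType // #{x | p x ≠ none} < θ}

instance (θ τ : Cardinal.{u}) : PartialOrder (Coll θ τ) where
  le q p := ∀ x b, p.1 x = some b → q.1 x = some b
  le_refl _ _ _ h := h
  le_trans _ _ _ h h' x b hb := h x b (h' x b hb)
  le_antisymm p q h h' := by
    apply Subtype.ext
    funext x
    cases hq : q.1 x with
    | some b => exact h x b hq
    | none =>
      cases hp : p.1 x with
      | none => rfl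
      | some b =>
        have := h' x b hp
        rw [hq] at this
        exact this.symm

/-- The forcing `Coll(ω, μ) × Coll(μ⁺, κ)`, ordered coordinatewise. -/
abbrev Frc (κ μ : Cardinal.{u}) : Type u := Coll ℵ₀ μ × Coll (succ μ) κ

/-- The cardinals in the extension by `Coll(ω, μ) × Coll(μ⁺, κ)`: it is forced that `ω` can be
mapped onto `μ` and `μ⁺` onto `κ`; no condition forces that a smaller cardinal is mapped onto `μ⁺`,
or onto a cardinal above `κ`. Thus `ℵ₁` is `μ⁺`, `ℵ₂` is `κ⁺`, and the cardinals above `κ` are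
preserved. -/
structure CollapseCardinals (κ μ : Cardinal.{u}) : Prop where
  countable : ∃ s : ℕ → Nm (Frc κ μ) μ.ord.ToType, ∀ p, ForcesOnto p s
  aleph_one : ∀ (s : μ.ord.ToType → Nm (Frc κ μ) (succ μ).ord.ToType) (p : Frc κ μ),
    ¬ ForcesOnto p s
  collapse : ∃ s : (succ μ).ord.ToType → Nm (Frc κ μ) κ.ord.ToType, ∀ p, ForcesOnto p s
  preserve : ∀ θ θ' : Cardinal.{u}, κ < θ → θ' < θ →
    ∀ (s : θ'.ord.ToType → Nm (Frc κ μ) θ.ord.ToType) (p : Frc κ μ), ¬ ForcesOnto p s

/-- The set of the ordinals below `λ⁺`, as a well-ordered type; `a.toOrd` is the ordinal `a`. -/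
abbrev SuccSet (lam : Cardinal.{u}) : Type u := (succ lam).ord.ToType

/-- The ordinal `a < λ⁺`. -/
noncomputable abbrev ordOf {lam : Cardinal.{u}} (a : SuccSet lam) : Ordinal.{u} :=
  (a.toOrd : Ordinal.{u})

/-- `F` is a name for countably many operations `F_i(c; a)` on `λ⁺` (`c` is a finite list). It is
forced by `Coll(ω, μ) × Coll(μ⁺, κ)` that there is a subset `X` of `λ⁺`, the set of the values
of the function `g` on `μ⁺ = ℵ₁`, such that `X` has an injective image of `μ⁺`, contains all
ordinals `≤ μ`, `X ∩ λ` is contained in the set of the values of the function `e` on `ω`, and `X` is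
closed under all `F_i(c; a)` with `a ∈ X` and all members of `c` in `X ∩ λ`. -/
def HasSubalgebra (κ μ lam : Cardinal.{u})
    (F : ℕ → List (SuccSet lam) → SuccSet lam → Nm (Frc κ μ) (SuccSet lam)) : Prop :=
  ∃ (g : (succ μ).ord.ToType → Nm (Frc κ μ) (SuccSet lam))
    (f : (succ μ).ord.ToType → SuccSet lam) (e : ℕ → Nm (Frc κ μ) (SuccSet lam)),
    Function.Injective f ∧ (∀ p ξ, ForcesMem p (Nm.pure (f ξ)) g) ∧
    (∀ p (x : SuccSet lam), ordOf x ≤ μ.ord → ForcesMem p (Nm.pure x) g) ∧
    (∀ p (x : SuccSet lam), ordOf x < lam.ord → ForcesMem p (Nm.pure x) g →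
      ForcesMem p (Nm.pure x) e) ∧
    ∀ p i c a, (∀ x ∈ c, ordOf x < lam.ord ∧ ForcesMem p (Nm.pure x) g) →
      ForcesMem p (Nm.pure a) g → ForcesMem p (F i c a) g

end Pool.Agent.Lib.MP_54fe2d_lc.FC
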