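import Pool.Agent.Lib.MP_54fe2d_lc.UC.SC

/-!
# Strongly compact cardinals are strong limits
-/

set_option autoImplicit false

namespace Pool.Agent.Lib.MP_54fe2d_lc.UC

open Cardinal Filter Set Order

universe u

theorem StronglyCompact.isStrongLimit {κ : Cardinal.{u}} (hκ : StronglyCompact κ) :
    κ.IsStrongLimit := by
  classical
  have hreg := hκ.isRegular
  have hω : ℵ₀ < κ := hκ.1
  -- a nonprincipal ultrafilter on `κ`
  obtain ⟨W, hWf, hW⟩ := hκ.2 κ.ord.ToType (cocardinal _ hreg) (by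
    rw [← forall_mem_nonempty_iff_neBot]
    intro s hs
    rw [mem_cocardinal] at hs
    by_contra hne
    rw [not_nonempty_iff_eq_empty] at hne
    rw [hne, compl_empty, mk_univ, mk_ord_toType] at hs
    exact lt_irrefl _ hs)
    (inferInstance)
  have hsing : ∀ x, ({x} : Set κ.ord.ToType)ᶜ ∈ (W : Filter κ.ord.ToType) := by
    intro x
    apply hWf
    rw [mem_cocardinal, compl_compl, Cardinal.mk_singleton]
    exact one_lt_aleph0.trans hω
  refine ⟨hreg.ne_zero, fun μ hμ => ?_⟩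
  by_contra hcon
  rw [not_lt] at hcon
  have h1 : #κ.ord.ToType ≤ #(Set μ.ord.ToType) := by
    rw [mk_ord_toType, Cardinal.mk_set, mk_ord_toType]
    exact hcon
  obtain ⟨h⟩ := Cardinal.le_def _ _ |>.1 h1
  -- the set of the majority decisions
  have h2 : ∀ ξ : μ.ord.ToType, ∃ b : Prop, {x | (ξ ∈ h x) ↔ b} ∈ (W : Filter κ.ord.ToType) := by
    intro ξ
    by_cases h3 : {x | ξ ∈ h x} ∈ W
    · refine ⟨True, ?_⟩
      filter_upwards [h3] with x hx
      exact ⟨fun _ => trivial, fun _ => hx⟩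
    · refine ⟨False, ?_⟩
      rw [← Ultrafilter.compl_mem_iff_notMem] at h3
      filter_upwards [h3] with x hx
      exact ⟨fun h' => hx h', False.elim⟩
  choose b hb using h2
  have h4 : (⋂ ξ : μ.ord.ToType, {x | (ξ ∈ h x) ↔ b ξ}) ∈ (W : Filter κ.ord.ToType) := by
    rw [cardinal_iInter_mem (c := κ) (by rw [mk_ord_toType]; exact hμ)]
    exact hb
  obtain ⟨x, hx⟩ := W.neBot.nonempty_of_mem h4
  obtain ⟨y, hy, hyx⟩ := W.neBot.nonempty_of_mem (inter_mem h4 (hsing x))
  have h5 : h x = h y := by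
    ext ξ
    have h6 : (ξ ∈ h x) ↔ b ξ := mem_iInter.1 hx ξ
    have h7 : (ξ ∈ h y) ↔ b ξ := mem_iInter.1 hy ξ
    exact h6.trans h7.symm
  exact hyx (h.injective h5).symm

end Pool.Agent.Lib.MP_54fe2d_lc.UC
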