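import Pool.Agent.Lib.MP_54fe2d_lc.FC.Core
import Pool.Agent.Lib.MP_54fe2d_lc.FC.Coll
import Pool.Agent.Lib.MP_54fe2d_lc.FC.Ina

/-!
# The forcing theorem
-/

set_option autoImplicit false

namespace Pool.Agent.Lib.MP_54fe2d_lc.FC

open Cardinal Order Set Pool.Agent.Lib.MP_54fe2d_lc.UC

universe u v w

section

variable {P : Type u} [PartialOrder P] {A : Type v}

theorem forcesMem_comp {B : Type w} {B' : Type*} {g : B → Nm P A} {h : B' → B}
    (hh : Function.Surjective h) (p : P) (x : Nm P A) :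
    ForcesMem p x (fun b => g (h b)) ↔ ForcesMem p x g := by
  constructor
  · intro H q hq
    obtain ⟨r, hr, b, a, h1, h2⟩ := H q hq
    exact ⟨r, hr, h b, a, h1, h2⟩
  · intro H q hq
    obtain ⟨r, hr, b, a, h1, h2⟩ := H q hq
    obtain ⟨b', rfl⟩ := hh b
    exact ⟨r, hr, b', a, h1, h2⟩

theorem ForcesMem.comp_name {B : Type w} {B' : Type*} {g : B → Nm P A} {s : B' → Nm P B}
    (hs : ∀ p, ForcesOnto p s) {p : P} {x : Nm P A} (H : ForcesMem p x g) :
    ForcesMem p x (fun b => (s b).bind g) := by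
  intro q hq
  obtain ⟨r, hr, b, a, h1, h2⟩ := H q hq
  obtain ⟨r', hr', b', hb'⟩ := forcesMem_pure.1 (hs r b) r le_rfl
  exact ⟨r', hr'.trans hr, b', a, ⟨b, hb', (g b).mono hr' h1⟩, x.mono hr' h2⟩

end

/-- the size of the forcing -/
theorem card_frc {κ μ : Cardinal.{u}} (hκ : StronglyCompact κ) (hω : ℵ₀ ≤ μ) (hμ : μ < κ) :
    #(Frc κ μ) ≤ κ := by
  have hreg := hκ.isRegular
  have hsucc : succ μ ≤ κ := Order.succ_le_of_lt hμ
  have h1 := Coll.card_aleph0 hω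
  have h2 := Coll.card_strongLimit hreg hκ.isStrongLimit hsucc
    (Order.bot_lt_succ μ).ne'
  rw [Cardinal.mk_prod, Cardinal.lift_id, Cardinal.lift_id]
  exact (mul_le_mul' (h1.trans hμ.le) h2).trans (Cardinal.mul_eq_self hreg.aleph0_le).le

theorem surj_of_card {θ : Cardinal.{u}} {M : Type u} (hM : #M ≤ θ) (hne : Nonempty M) :
    ∃ f : θ.ord.ToType → M, Function.Surjective f := by
  have h1 : #M ≤ #θ.ord.ToType := by rw [mk_ord_toType]; exact hM
  obtain ⟨f⟩ := Cardinal.le_def _ _ |>.1 h1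
  exact ⟨Function.invFun f, Function.invFun_surjective f.injective⟩

theorem main {κ lam : Cardinal.{u}} (hκ : StronglyCompact κ) (hlam : κ < lam)
    (hsl : lam.IsStrongLimit) (hcof : lam.ord.cof < κ) (ν : Cardinal.{u}) (hν : ν < κ) :
    ∃ μ : Cardinal.{u}, ν ≤ μ ∧ ℵ₀ ≤ μ ∧ μ < κ ∧ CollapseCardinals κ μ ∧
      ∀ F : ℕ → List (SuccSet lam) → SuccSet lam → Nm (Frc κ μ) (SuccSet lam),
        HasSubalgebra κ μ lam F := by
  classical
  have hω : ℵ₀ < κ := hκ.1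
  have hreg := hκ.isRegular
  obtain ⟨μ, hνμ', hμ, hcore⟩ := core hκ hlam.le hsl hcof (Frc κ) (max ν ℵ₀) (max_lt hν hω)
    (fun μ h1 h2 => (card_frc hκ ((le_max_right _ _).trans h1) h2).trans_lt hlam)
    (ULift.{u} ℕ) (by rw [Cardinal.mk_uLift, Cardinal.mk_nat, Cardinal.lift_aleph0]; exact hω)
  have hνμ : ν ≤ μ := (le_max_left _ _).trans hνμ'
  have hωμ : ℵ₀ ≤ μ := (le_max_right _ _).trans hνμ'
  have hμ0 : μ ≠ 0 := (aleph0_pos.trans_le hωμ).ne'
  have hcard := card_frc hκ hωμ hμ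
  -- `μ` is countable in the extension
  have hs : ∃ s : ℕ → Nm (Frc κ μ) μ.ord.ToType, ∀ p, ForcesOnto p s := by
    have hc : #(ℵ₀ : Cardinal.{u}).ord.ToType = #(ULift.{u} ℕ) := by
      rw [mk_ord_toType, Cardinal.mk_uLift, Cardinal.mk_nat, Cardinal.lift_aleph0]
    obtain ⟨φ⟩ := Cardinal.eq.1 hc
    have hsurj : Function.Surjective (fun n : ℕ => φ.symm (ULift.up n)) := by
      intro x
      exact ⟨(φ x).down, φ.symm_apply_apply x⟩
    refine ⟨fun n => (Coll.gen le_rfl hμ0 (φ.symm (ULift.up n))).left, fun p b => ?_⟩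
    exact (forcesMem_comp hsurj p _).2
      (ForcesOnto.left (p := p) (Coll.forcesOnto le_rfl hμ0 p.1) b)
  obtain ⟨s, hs⟩ := hs
  refine ⟨μ, hνμ, hωμ, hμ, ⟨⟨s, hs⟩, ?_, ?_, ?_⟩, ?_⟩
  · intro s p
    refine not_onto_prod hωμ (Coll.card_aleph0 hωμ) (Coll.closed hωμ) ?_ ?_ s p
    · rw [mk_ord_toType]
    · rw [mk_ord_toType]
      exact Order.lt_succ μ
  · have hκ0 : κ ≠ 0 := hreg.ne_zero
    have hωs : ℵ₀ ≤ succ μ := hωμ.trans (Order.le_succ _)
    exact ⟨fun x => (Coll.gen hωs hκ0 x).right, fun p =>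
      ForcesOnto.right (p := p) (Coll.forcesOnto hωs hκ0 p.2)⟩
  · intro θ θ' hθ hθ' s p
    refine not_onto_of_card ?_ ?_ ?_ s p
    · rw [mk_ord_toType]
      exact hω.le.trans hθ.le
    · rw [mk_ord_toType]
      exact hcard.trans_lt hθ
    · rw [mk_ord_toType, mk_ord_toType]
      exact hθ'
  · intro F
    obtain ⟨M, G, e, g, X₀, hM, hG, hX₀, hμX₀, h1, h2, h3⟩ := hcore fun i => F i.down
    have hx₀ : ∃ x₀ : (succ lam).ord.ToType, (x₀.toOrd : Ordinal) = 0 := by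
      have h0 : (0 : Ordinal.{u}) < (succ lam).ord := by
        rw [← Cardinal.ord_zero, Cardinal.ord_lt_ord]
        exact (Order.bot_lt_succ lam)
      exact ⟨Ordinal.ToType.mk ⟨0, h0⟩, by simp [Ordinal.ToType.toOrd]⟩
    obtain ⟨x₀, hx₀⟩ := hx₀
    have hg₀ : ∀ p, ForcesMem p (Nm.pure x₀) g := h1 x₀ (hμX₀ x₀ (by rw [hx₀]; exact zero_le))
    have hlam0 : (0 : Ordinal.{u}) < lam.ord := by
      rw [← Cardinal.ord_zero, Cardinal.ord_lt_ord]
      exact (zero_le).trans_lt hlam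
    obtain ⟨p₀⟩ : Nonempty (Frc κ μ) := by
      refine ⟨(⟨fun _ => none, ?_⟩, ⟨fun _ => none, ?_⟩)⟩
      · have : {x : (ℵ₀ : Cardinal.{u}).ord.ToType | (none : Option μ.ord.ToType) ≠ none} = ∅ := by
          ext x; simp
        rw [this, Cardinal.mk_emptyCollection]
        exact aleph0_pos
      · have : {x : (succ μ).ord.ToType | (none : Option κ.ord.ToType) ≠ none} = ∅ := by
          ext x; simp
        rw [this, Cardinal.mk_emptyCollection]
        exact Order.bot_lt_succ μ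
    have hGne : Nonempty G := by
      obtain ⟨r, _, b, _⟩ := forcesMem_pure.1 (hg₀ p₀) p₀ le_rfl
      exact ⟨b⟩
    have hMne : Nonempty M := by
      obtain ⟨r, _, b, _⟩ := forcesMem_pure.1 (h2 p₀ x₀ (by rw [hx₀]; exact hlam0) (hg₀ p₀))
        p₀ le_rfl
      exact ⟨b⟩
    obtain ⟨γ, hγ⟩ := surj_of_card hG hGne
    obtain ⟨δ, hδ⟩ := surj_of_card hM hMne
    have hXe : #(succ μ).ord.ToType = #X₀ := by rw [mk_ord_toType, hX₀]
    obtain ⟨φ⟩ := Cardinal.eq.1 hXe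
    refine ⟨fun ξ => g (γ ξ), fun ξ => (φ ξ : (succ lam).ord.ToType),
      fun n => (s n).bind fun b => e (δ b), ?_, ?_, ?_, ?_, ?_⟩
    · exact fun ξ ξ' h => φ.injective (Subtype.ext h)
    · intro p ξ
      exact (forcesMem_comp hγ p _).2 (h1 _ (φ ξ).2 p)
    · intro p x hx
      exact (forcesMem_comp hγ p _).2 (h1 x (hμX₀ x hx) p)
    · intro p x hx h
      have h4 := h2 p x hx ((forcesMem_comp hγ p _).1 h)
      exact ForcesMem.comp_name hs ((forcesMem_comp hδ p _).2 h4)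
    · intro p i c a hc ha
      refine (forcesMem_comp hγ p _).2 (h3 p (ULift.up i) c a ?_ ((forcesMem_comp hγ p _).1 ha))
      intro x hx
      exact ⟨(hc x hx).1, (forcesMem_comp hγ p _).1 (hc x hx).2⟩

end Pool.Agent.Lib.MP_54fe2d_lc.FC
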