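import Pool.Agent.Lib.MP_54fe2d_lc.FC.Defs

/-!
# Calculus of names
-/

set_option autoImplicit false

namespace Pool.Agent.Lib.MP_54fe2d_lc.FC

open Cardinal Order

universe u v w

variable {P : Type u} [PartialOrder P] {A : Type v} {B : Type w}

theorem Nm.eq_of_le {x : Nm P A} {p q r : P} {a b : A} (hp : x.rel p a) (hq : x.rel q b)
    (hrp : r ≤ p) (hrq : r ≤ q) : a = b :=
  x.uniq (x.mono hrp hp) (x.mono hrq hq)

/-- composition -/
def Nm.bind (x : Nm P A) (f : A → Nm P B) : Nm P B where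
  rel p b := ∃ a, x.rel p a ∧ (f a).rel p b
  mono := by
    rintro p q b hqp ⟨a, h1, h2⟩
    exact ⟨a, x.mono hqp h1, (f a).mono hqp h2⟩
  uniq := by
    rintro p b b' ⟨a, h1, h2⟩ ⟨a', h1', h2'⟩
    obtain rfl := x.uniq h1 h1'
    exact (f a).uniq h2 h2'
  dense := by
    intro p
    obtain ⟨q, hq, a, ha⟩ := x.dense p
    obtain ⟨r, hr, b, hb⟩ := (f a).dense q
    exact ⟨r, hr.trans hq, b, a, x.mono hr ha, hb⟩

theorem Nm.bind_rel {x : Nm P A} {f : A → Nm P B} {p : P} {a : A} {b : B} (ha : x.rel p a)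
    (hb : (f a).rel p b) : (x.bind f).rel p b := ⟨a, ha, hb⟩

/-- image -/
def Nm.map (f : A → B) (x : Nm P A) : Nm P B := x.bind fun a => Nm.pure (f a)

theorem Nm.map_rel {f : A → B} {x : Nm P A} {p : P} {a : A} (ha : x.rel p a) :
    (x.map f).rel p (f a) := ⟨a, ha, rfl⟩

theorem Nm.of_map_rel {f : A → B} {x : Nm P A} {p : P} {b : B} (h : (x.map f).rel p b) :
    ∃ a, x.rel p a ∧ b = f a := h

/-- a list of names is a name for a list -/
def Nm.list : List (Nm P A) → Nm P (List A)
  | [] => Nm.pure []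
  | x :: l => x.bind fun a => (Nm.list l).map (a :: ·)

theorem Nm.list_nil_rel (p : P) : (Nm.list ([] : List (Nm P A))).rel p [] := rfl

theorem Nm.list_cons_rel {x : Nm P A} {l : List (Nm P A)} {p : P} {a : A} {c : List A}
    (ha : x.rel p a) (hc : (Nm.list l).rel p c) : (Nm.list (x :: l)).rel p (a :: c) :=
  ⟨a, ha, c, hc, rfl⟩

theorem Nm.of_list_cons_rel {x : Nm P A} {l : List (Nm P A)} {p : P} {c : List A}
    (h : (Nm.list (x :: l)).rel p c) :
    ∃ a c', x.rel p a ∧ (Nm.list l).rel p c' ∧ c = a :: c' := by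
  obtain ⟨a, ha, c', hc', h⟩ := h
  exact ⟨a, c', ha, hc', h⟩

theorem Nm.list_append_rel {l l' : List (Nm P A)} {p : P} {c c' : List A}
    (hc : (Nm.list l).rel p c) (hc' : (Nm.list l').rel p c') :
    (Nm.list (l ++ l')).rel p (c ++ c') := by
  induction l generalizing c with
  | nil =>
    have h : c = [] := hc
    subst h
    exact hc'
  | cons x l ih =>
    obtain ⟨a, c₁, ha, hc₁, rfl⟩ := Nm.of_list_cons_rel hc
    exact Nm.list_cons_rel ha (ih hc₁)

/-- the values of a list of names -/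
theorem Nm.of_list_rel {l : List (Nm P A)} {p : P} {c : List A} (h : (Nm.list l).rel p c) :
    List.Forall₂ (fun x a => x.rel p a) l c := by
  induction l generalizing c with
  | nil =>
    have h : c = [] := h
    subst h
    exact List.Forall₂.nil
  | cons x l ih =>
    obtain ⟨a, c₁, ha, hc₁, rfl⟩ := Nm.of_list_cons_rel h
    exact List.Forall₂.cons ha (ih hc₁)

/-- application of named operations along a path -/
def actN {I : Type w} (F : I → List A → A → Nm P A) : List (I × List A) → A → Nm P A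
  | [], a => Nm.pure a
  | q :: π, a => (actN F π a).bind (F q.1 q.2)

/-! ### forced membership -/

theorem ForcesMem.mono {p q : P} {x : Nm P A} {g : B → Nm P A} (h : ForcesMem p x g)
    (hqp : q ≤ p) : ForcesMem q x g := fun r hr => h r (hr.trans hqp)

/-- it is enough to treat the conditions below `p` which decide the value -/
theorem forcesMem_of {p : P} {x : Nm P A} {g : B → Nm P A}
    (h : ∀ q ≤ p, ∀ a, x.rel q a → ∃ r ≤ q, ∃ b, (g b).rel r a) : ForcesMem p x g := by
  intro q hq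
  obtain ⟨r, hr, a, ha⟩ := x.dense q
  obtain ⟨s, hs, b, hb⟩ := h r (hr.trans hq) a ha
  exact ⟨s, hs.trans hr, b, a, hb, x.mono hs ha⟩

theorem forcesMem_pure {p : P} {a : A} {g : B → Nm P A} :
    ForcesMem p (Nm.pure a) g ↔ ∀ q ≤ p, ∃ r ≤ q, ∃ b, (g b).rel r a := by
  constructor
  · intro h q hq
    obtain ⟨r, hr, b, a', hb, ha⟩ := h q hq
    have ha' : a' = a := ha
    subst ha'
    exact ⟨r, hr, b, hb⟩
  · intro h q hq
    obtain ⟨r, hr, b, hb⟩ := h q hq
    exact ⟨r, hr, b, a, hb, rfl⟩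

/-- finitely many elements can be named at once -/
theorem exists_list {p : P} {g : B → Nm P A} (c : List A)
    (h : ∀ x ∈ c, ForcesMem p (Nm.pure x) g) :
    ∀ q ≤ p, ∃ r ≤ q, ∃ L : List B, L.length = c.length ∧ (Nm.list (L.map g)).rel r c := by
  induction c with
  | nil => exact fun q _ => ⟨q, le_rfl, [], rfl, rfl⟩
  | cons a c ih =>
    intro q hq
    obtain ⟨r, hr, L, hL, hL'⟩ := ih (fun x hx => h x (List.mem_cons_of_mem _ hx)) q hq
    obtain ⟨s, hs, b, hb⟩ := forcesMem_pure.1 (h a List.mem_cons_self) r (hr.trans hq)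
    refine ⟨s, hs.trans hr, b :: L, by simp [hL], ?_⟩
    exact Nm.list_cons_rel hb ((Nm.list _).mono hs hL')

end Pool.Agent.Lib.MP_54fe2d_lc.FC
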